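import Mathlib
import Pool.Agent.U707.PT.Stm

/-!
# Project PT, package PROJ: the projections to the parts of given weight
-/

set_option autoImplicit false

open Polynomial Module

namespace Pool.Agent.U858.PT

open Pool.Agent.U707.PT

/-- polynomials of different weights are coprime -/
theorem weil_coprime {q : ℕ} (hq : 1 < q) {c d : ℤ} (hcd : c ≠ d) {f g : ℚ[X]}
    (hf : IsWeil q c f) (hg : IsWeil q d g) : IsCoprime f g := by
  rw [Polynomial.isCoprime_iff_aeval_ne_zero_of_isAlgClosed ℚ ℂ]
  intro z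
  by_contra h
  push Not at h
  have h1 := hf.2 z h.1
  have h2 := hg.2 z h.2
  rw [h1] at h2
  have hq0 : (0 : ℝ) < q := by exact_mod_cast (by omega : 0 < q)
  have hq1 : (q : ℝ) ≠ 1 := by exact_mod_cast (by omega : q ≠ 1)
  exact hcd (zpow_right_injective₀ hq0 hq1 h2)

/-- the products of Weil polynomials -/
noncomputable def Good (q : ℕ) : Submonoid ℚ[X] := Submonoid.closure {f | ∃ c, IsWeil q c f}

theorem good_split {q : ℕ} (hq : 1 < q) (c : ℤ) {P : ℚ[X]} (hP : P ∈ Good q) :
    ∃ a b : ℚ[X], P = a * b ∧ IsWeil q c a ∧ ∀ g, IsWeil q c g → IsCoprime b g := by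
  unfold Good at hP
  induction hP using Submonoid.closure_induction with
  | mem f hf =>
    obtain ⟨d, hd⟩ := hf
    by_cases hdc : d = c
    · subst hdc
      exact ⟨f, 1, (mul_one f).symm, hd, fun g _ => isCoprime_one_left⟩
    · exact ⟨1, f, (one_mul f).symm, IsWeil.one q c, fun g hg => weil_coprime hq hdc hd hg⟩
  | one => exact ⟨1, 1, (mul_one 1).symm, IsWeil.one q c, fun g _ => isCoprime_one_left⟩
  | mul P Q _ _ hP hQ =>
    obtain ⟨a, b, hab, ha, hb⟩ := hP
    obtain ⟨a', b', hab', ha', hb'⟩ := hQ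
    refine ⟨a * a', b * b', ?_, ha.mul ha', fun g hg => (hb g hg).mul_left (hb' g hg)⟩
    rw [hab, hab']
    ring

section

variable {E : Type} [Field E] [CharZero E] {V : Type} [AddCommGroup V] [Module E V]

/-- the operator of a rational polynomial -/
noncomputable abbrev op (F : Module.End E V) (f : ℚ[X]) : Module.End E V :=
  aeval F (f.map (algebraMap ℚ E))

theorem op_mul (F : Module.End E V) (f g : ℚ[X]) (x : V) :
    op F (f * g) x = op F f (op F g x) := by
  unfold op
  rw [Polynomial.map_mul, map_mul, Module.End.mul_apply]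

theorem op_add (F : Module.End E V) (f g : ℚ[X]) (x : V) :
    op F (f + g) x = op F f x + op F g x := by
  unfold op
  rw [Polynomial.map_add, map_add, LinearMap.add_apply]

theorem op_one (F : Module.End E V) (x : V) : op F 1 x = x := by
  unfold op
  rw [Polynomial.map_one, map_one, Module.End.one_apply]

theorem op_dvd (F : Module.End E V) {f g : ℚ[X]} (h : f ∣ g) {x : V} (hx : op F f x = 0) :
    op F g x = 0 := by
  obtain ⟨k, rfl⟩ := h
  rw [mul_comm, op_mul, hx, map_zero]

theorem op_coprime (F : Module.End E V) {f g : ℚ[X]} (h : IsCoprime f g) {x : V}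
    (hf : op F f x = 0) (hg : op F g x = 0) : x = 0 := by
  obtain ⟨u, v, huv⟩ := h
  rw [← op_one F x, ← huv, op_add, op_mul, op_mul, hf, hg, map_zero, map_zero, add_zero]

theorem exists_good (q : ℕ) (F : Module.End E V) {x : V} (hx : x ∈ ⨆ c, wt q F c) :
    ∃ P ∈ Good q, op F P x = 0 := by
  refine Submodule.iSup_induction (fun c => wt q F c)
    (motive := fun x => ∃ P ∈ Good q, op F P x = 0) hx ?_ ?_ ?_
  · rintro c y ⟨f, hf, hy⟩
    exact ⟨f, Submonoid.subset_closure ⟨c, hf⟩, hy⟩
  · exact ⟨1, one_mem _, map_zero _⟩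
  · rintro y z ⟨P, hP, hy⟩ ⟨Q, hQ, hz⟩
    refine ⟨P * Q, mul_mem hP hQ, ?_⟩
    rw [map_add, op_dvd F (dvd_mul_right P Q) hy, op_dvd F (dvd_mul_left Q P) hz, add_zero]

end

theorem t_PROJ : Pool.Agent.U707.PT.S_PROJ := by
  intro E _ _ ι _ V _ _ _ F q hq htop
  -- one good polynomial kills everything
  have h1 : ∀ (i : ι) (j : Fin (finrank E (V i))),
      ∃ P ∈ Good q, op (F i) P (finBasis E (V i) j) = 0 := by
    intro i j
    apply exists_good
    rw [htop i]
    exact Submodule.mem_top
  choose P hP1 hP2 using h1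
  obtain ⟨T, hT1, hT2⟩ : ∃ T ∈ Good q, ∀ (i : ι) (x : V i), op (F i) T x = 0 := by
    refine ⟨∏ i, ∏ j, P i j, Submonoid.prod_mem _ fun i _ => Submonoid.prod_mem _
      fun j _ => hP1 i j, ?_⟩
    intro i x
    have h2 : op (F i) (∏ i, ∏ j, P i j) = 0 := by
      apply (finBasis E (V i)).ext
      intro j
      rw [LinearMap.zero_apply]
      refine op_dvd (F i) ?_ (hP2 i j)
      exact (Finset.dvd_prod_of_mem (P i) (Finset.mem_univ j)).trans
        (Finset.dvd_prod_of_mem (fun i => ∏ j, P i j) (Finset.mem_univ i))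
    rw [h2, LinearMap.zero_apply]
  have h3 : ∀ c : ℤ, ∃ a b u v : ℚ[X], T = a * b ∧ IsWeil q c a ∧
      (∀ g, IsWeil q c g → IsCoprime b g) ∧ u * a + v * b = 1 := by
    intro c
    obtain ⟨a, b, hab, ha, hb⟩ := good_split hq c hT1
    obtain ⟨u, v, huv⟩ := (hb a ha).symm
    exact ⟨a, b, u, v, hab, ha, hb, huv⟩
  choose a b u v hab ha hb huv using h3
  refine ⟨fun c => v c * b c, ?_⟩
  intro i c d x hx
  obtain ⟨g, hg, hgx⟩ := hx
  have hgx : op (F i) g x = 0 := hgx
  change op (F i) (v c * b c) x = _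
  by_cases hdc : d = c
  · subst hdc
    rw [if_pos rfl]
    -- `y = (1 - p)(F) x`
    have hy : op (F i) (u d * a d) x = 0 := by
      apply op_coprime (F i) (hb d g hg)
      · rw [← op_mul]
        have e : b d * (u d * a d) = u d * T := by
          rw [hab d]
          ring
        rw [e, op_mul, hT2 i x, map_zero]
      · rw [← op_mul, mul_comm, op_mul, hgx, map_zero]
    have h5 := op_one (F i) x
    rw [← huv d, op_add, hy, zero_add] at h5
    exact h5
  · rw [if_neg hdc]
    apply op_coprime (F i) (weil_coprime hq (Ne.symm hdc) (ha c) hg)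
    · rw [← op_mul]
      have e : a c * (v c * b c) = v c * T := by
        rw [hab c]
        ring
      rw [e, op_mul, hT2 i x, map_zero]
    · rw [← op_mul, mul_comm, op_mul, hgx, map_zero]

end Pool.Agent.U858.PT

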